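import Pool.Agent.W5h10.SI.Final2
import Pool.Agent.W5h10.SI.Adj
import Pool.Agent.W5h10.SI.Weak
import Pool.Agent.W5h10.SI.Cont
import Pool.Agent.W5h10.SI.Iter
import Pool.Agent.W5h10.SI.Basic
import Pool.Agent.W5h10.SI.Prof
import Pool.Agent.W5h10.SI.Half
import Pool.Agent.W5h10.SI.Ball
import Pool.Agent.W5h10.SI.Out2
import Pool.Agent.W5h10.SI.Area2
import Pool.Agent.W5h10.SI.Up2
import Pool.Agent.W5h10.SI.LOne
import Pool.Agent.W5h10.SI.Fun
import Pool.Agent.W5h10.SI.Eff
import Pool.Agent.W5h10.SI.Num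
import Pool.Agent.W5h10.SI.Fin

/-!
# The lower bound on the control cost fails in the sharp interface limit (MP_c63f0d_an, Q1)

There are a reaction term `f` as in the problem and a moving set (the disc of radius `1 - 39t/10`,
`0 ≤ t ≤ 1/10`, inward normal speed `39/10 ≥ β*`) with a family of bounded controls `α ε` and
continuous weak solutions `u ε` with values in `[0, 1]` and `u ε (t, ·) → 1_{Ω(t)}` in `L¹` for every
`t ∈ [0, 1/10]`, whose cost tends to zero, uniformly in `t`, while the right-hand side of the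
inequality of the problem is positive on every time interval. The front is a polygonal line with about
`ε^{-1/2}` thin wedges cut into the disc; control is needed only near the tips of the wedges.

The definitions `ST`, `dt`, `lap`, `Test`, `Wave` are in `Pool/Agent/W5h10/SI/Defs.lean`, `effort` in
`Assem.lean`, `Reaction`, `Controlled`, `Om` in `Final.lean`.
-/

set_option autoImplicit false

open MeasureTheory Set Filter Topology
open scoped ENNReal

namespace Pool.Agent.Results.MP_c63f0d_an.ZigzagFronts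

open Pool.Agent.W5h10.SI

theorem result :
    ∃ f : ℝ → ℝ, Reaction f ∧ (∀ (b : ℝ) (U : ℝ → ℝ), Wave f b (fun _ => 0) U → b ≤ 39 / 10) ∧
      3 / 10 ≤ effort f (39 / 10) ∧ effort f (39 / 10) < ⊤ ∧
      ∃ α u : ℝ → ST → ℝ,
        (∀ ε : ℝ, 0 < ε → Controlled f ε (α ε) (u ε)) ∧
        (∀ t ∈ Icc (0 : ℝ) (1 / 10), Tendsto (fun ε : ℝ => ∫⁻ z : ℝ × ℝ,
          ENNReal.ofReal |u ε (t, z) - (Om t).indicator (fun _ => (1 : ℝ)) z|) (𝓝[>] 0) (𝓝 0)) ∧
        (∀ ε : ℝ, 0 < ε → ∀ t ∈ Icc (0 : ℝ) (1 / 10),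
          ∫⁻ z : ℝ × ℝ, ENNReal.ofReal (α ε (t, z)) ≤ ENNReal.ofReal (300 * (√ε + ε))) ∧
        (∀ t₁ t₂ : ℝ, 0 ≤ t₁ → t₁ < t₂ → t₂ ≤ 1 / 10 →
          Tendsto (fun ε : ℝ => ∫⁻ t in Icc t₁ t₂, ∫⁻ z : ℝ × ℝ, ENNReal.ofReal (α ε (t, z)))
            (𝓝[>] 0) (𝓝 0) ∧
          0 < ∫⁻ t in Icc t₁ t₂,
            effort f (39 / 10) * ENNReal.ofReal (2 * Real.pi * (1 - 39 / 10 * t))) := by
  exact final2 (weak adj basic) cont (iter basic) basic (ball (half prof) basic) inn2 out2 area2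
    (up2 (half prof) basic) lone fn eff num (effort_lt_top fn)

end Pool.Agent.Results.MP_c63f0d_an.ZigzagFronts
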